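import Pool.Agent.Work.MP_eb5f03_all.Interface3

set_option autoImplicit false

namespace Pool.CubicTate

theorem p_ALL (h1 : S_LF3) (h3 : S_DIV) : S_ALL := by
  classical
  intro p _ hp2 S r hr A Hbar H3 H2 _ _ _ _ X a
  have hp : p.Prime := Fact.out
  have hp0 : (p : ℤ) ≠ 0 := by exact_mod_cast hp.ne_zero
  have hall : X.h ∈ X.all := (X.mem_all _).2 ⟨1, one_pos, X.h_im⟩
  by_cases hah : ∃ k : ℤ, a = k • X.h
  · obtain ⟨k, rfl⟩ := hah
    exact AddSubgroup.zsmul_mem _ hall k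
  · have hah' : ∀ k : ℤ, a ≠ k • X.h := fun k hk => hah ⟨k, hk⟩
    obtain ⟨k, b, j, hab, -, hb3⟩ := h3 p A X.h hp X.fg X.h_prim a hah'
    obtain ⟨m, hm, hb⟩ := X.fin b
    obtain ⟨K, t, hl, hv, -⟩ := h1 p hp2 S r hr A Hbar H3 H2 X b m hm hb hb3
    have hbC : b ∈ X.C t := (X.C_mem K t m hl b).2 hv
    have hball : b ∈ X.all := X.C_all K t m hl hbC
    rw [hab]
    exact AddSubgroup.add_mem _ (AddSubgroup.zsmul_mem _ hball _) (AddSubgroup.zsmul_mem _ hall _)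

end Pool.CubicTate
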