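import Pool.Agent.Work.MP_eb5f03_all.Interface3

set_option autoImplicit false

namespace Pool.CubicTate

theorem LF3_max (p : ℕ) [Fact p.Prime] (t u : Fin 20 → Om p) (ρ : ℝ) (hρ : 0 ≤ ρ)
    (hu : ‖u‖ ≤ ρ) (h : ∀ i, ‖t i - u i‖ ≤ ρ) : ‖t‖ ≤ ρ := by
  rw [pi_norm_le_iff_of_nonneg hρ]
  intro i
  have h1 : t i = (t i - u i) + u i := by ring
  rw [h1]
  exact (PadicAlgCl.isNonarchimedean p _ _).trans
    (max_le (h i) ((norm_le_pi_norm u i).trans hu))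

theorem p_LF3 (hRDG : S_RDG) (hRAM : S_RAM) (hUNR : S_UNR) (hLIN : S_LIN) (hQUA : S_QUA)
    (hLIM : S_LIM) (hBAI : S_BAI) : S_LF3 := by
  intro p _ h5 S r hr A Hbar H3 H2 _ _ _ _ X a m hm hphim hthird
  have hn : 0 < r * m := Nat.mul_pos hr hm
  obtain ⟨L, hLf, hLd, hLr⟩ := hUNR p (r * m) hn
  have hp0 : (p : ℚ_[p]) ≠ 0 := by
    exact_mod_cast (Fact.out : p.Prime).ne_zero
  have hxval : (Algebra.norm ℚ_[p] ((p : ℕ) : L)).valuation = (resDeg p L : ℤ) := by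
    have e1 : ((p : ℕ) : L) = algebraMap ℚ_[p] L (p : ℚ_[p]) := (map_natCast _ _).symm
    rw [e1, Algebra.norm_algebraMap, Padic.valuation_pow, Padic.valuation_p, mul_one, hLr, ← hLd]
    rfl
  have hx0 : ((p : ℕ) : L) ≠ 0 := by
    exact_mod_cast (Fact.out : p.Prime).ne_zero
  obtain ⟨y, hy⟩ := IsAlgClosed.exists_pow_nat_eq ((p : ℕ) : Om p) (n := 2) (by norm_num)
  obtain ⟨K, hKf, hLK, hyK, -, hKr⟩ := hRAM p L hLf ((p : ℕ) : L) hx0 hxval 2 (by norm_num) y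
    (by rw [hy]; simp)
  rw [hLr] at hKr
  -- norms
  have hpn : ‖((p : ℕ) : Om p)‖ < 1 := by
    have e1 : ((p : ℕ) : Om p) = (((p : ℕ) : ℚ_[p]) : PadicAlgCl p) := by
      rw [map_natCast]
    rw [e1, PadicAlgCl.norm_extends]
    exact Padic.norm_p_lt_one
  have hpn0 : 0 < ‖((p : ℕ) : Om p)‖ := by
    rw [norm_pos_iff]
    exact_mod_cast (Fact.out : p.Prime).ne_zero
  obtain ⟨ρ, hρ⟩ : ∃ ρ, ρ = ‖y‖ := ⟨_, rfl⟩
  have hρ2 : ρ ^ 2 = ‖((p : ℕ) : Om p)‖ := by rw [hρ, ← norm_pow, hy]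
  have hρ0 : 0 < ρ := by
    rcases (norm_nonneg y).eq_or_lt with h | h
    · rw [hρ, ← h] at hρ2
      rw [← hρ2] at hpn0
      norm_num at hpn0
    · rw [hρ]; exact h
  have hρ1 : ρ < 1 := by
    by_contra hc
    push Not at hc
    have : 1 ≤ ρ ^ 2 := one_le_pow₀ hc
    rw [hρ2] at this
    linarith
  have hmem := X.f_mem a m hm hphim K hKf hKr
  have hf0 : ‖X.f a 0‖ ≤ ‖((p : ℕ) : Om p)‖ := X.f_unram a 0 (X.f_zero a)
  have hf0' : ‖X.f a 0‖ ≤ ρ := by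
    refine hf0.trans ?_
    rw [← hρ2]
    nlinarith
  have happ : ∀ N : ℕ, ∃ t : Fin 20 → Om p, (∀ i, t i ∈ K) ∧ ‖t‖ ≤ ρ ∧
      ‖trunc p (X.f a) N t‖ ≤ ρ ^ N := by
    rcases X.cases a with h | ⟨h1, h2⟩ | ⟨b, k, h⟩
    · exact hLIN p K (X.f a) ρ hρ0 hρ1 hmem (X.f_le a) hf0' h
    · have := hQUA p h5 K hKf y hyK hy (X.f a) hmem (X.f_le a) hf0
        (fun i => X.f_unram a _ (h1 i)) h2
      rw [← hρ] at this
      exact this
    · exact absurd h (hthird b k)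
  have hzero := hLIM p K hKf (X.f a) ρ hρ0 hρ1 (X.f_le a) happ
  have hcount : Countable A := by
    have := X.fg
    obtain ⟨n, g, hg⟩ := Module.Finite.exists_fin' ℤ A
    exact hg.countable
  obtain ⟨t, ht1, ht2, ht3, ht4⟩ := hBAI p K hKf (X.f a) ρ
    {b : A // ∀ n x y : ℤ, n ≠ 0 → n • b ≠ x • a + y • X.h} (fun b => X.f b.1) hzero
    (by
      rintro ⟨b, hb⟩ u ε hu1 hu2 hu3 hε
      by_contra hcon
      obtain ⟨n, x', y', hn', he⟩ := X.torelli a b K u m (min ε ρ)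
        ⟨hKf, hm, hKr, hu1, hu2.trans_lt hρ1⟩ hphim hu3 (lt_min hε hρ0) (by
          intro t hlift hclose hvan
          by_contra hnv
          apply hcon
          refine ⟨t, hlift.2.2.2.1, ?_, hvan, ?_, hnv⟩
          · exact LF3_max p t u ρ hρ0.le hu2 (fun i => ((hclose i).trans_le (min_le_right _ _)).le)
          · rw [pi_norm_lt_iff hε]
            exact fun i => (hclose i).trans_le (min_le_left _ _))
      exact hb n x' y' hn' he)
  have hlift : IsLift r K t m := ⟨hKf, hm, hKr, ht1, ht2.trans_lt hρ1⟩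
  refine ⟨K, t, hlift, ht3, fun b hb => ?_⟩
  by_contra hcon
  push Not at hcon
  exact ht4 ⟨b, hcon⟩ ((X.C_mem K t m hlift b).1 hb)

end Pool.CubicTate
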