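import Pool.Agent.Work.MP_eb5f03_all.Interface3

/-! Block MOD (helper41). -/

set_option autoImplicit false

namespace Pool.CubicTate

theorem MD3_cong {A : Type} [AddCommGroup A] (h a b : A) :
    Cong h a b ↔ (QuotientAddGroup.mk' (AddSubgroup.zmultiples h)) a
      = (QuotientAddGroup.mk' (AddSubgroup.zmultiples h)) b := by
  rw [QuotientAddGroup.mk'_apply, QuotientAddGroup.mk'_apply, eq_comm, QuotientAddGroup.eq,
    AddSubgroup.mem_zmultiples_iff]
  constructor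
  · rintro ⟨k, hk⟩
    exact ⟨k, by rw [hk]; abel⟩
  · rintro ⟨k, hk⟩
    exact ⟨k, by rw [hk]; abel⟩

theorem MD3_form {N : Type} [AddCommGroup N] (B : N → N → ℤ)
    (hadd : ∀ x y z, B (x + y) z = B x z + B y z) (hsymm : ∀ x y, B x y = B y x) (u l1 l2 : N)
    (h11 : B l1 l1 = 2) (h22 : B l2 l2 = 2) (h12 : B l1 l2 = -1) (c : ℤ) (hc : B u u = c + c)
    (x y : ℤ) : B (u + (x • l1 + y • l2)) (u + (x • l1 + y • l2))
      = 2 * (c + B u l1 * x + B u l2 * y + x ^ 2 - x * y + y ^ 2) := by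
  have hz : ∀ (k : ℤ) (w z : N), B (k • w) z = k * B w z := by
    intro k w z
    have h1 := map_zsmul (AddMonoidHom.mk' (fun x => B x z) (fun a b => hadd a b z)) k w
    simpa using h1
  have hz' : ∀ (k : ℤ) (w z : N), B z (k • w) = k * B z w := by
    intro k w z
    rw [hsymm, hz, hsymm]
  have hadd' : ∀ x y z, B z (x + y) = B z x + B z y := by
    intro x y z
    rw [hsymm, hadd, hsymm x, hsymm y]
  simp only [hadd, hadd', hz, hz', h11, h22, h12, hsymm l2 l1, hsymm l1 u, hsymm l2 u, hc]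
  ring

theorem p_MD3 (hRDG : S_RDG) (hTOW : S_TOW) (hRAM : S_RAM) (hWIT : S_WIT) (hTRI : S_TRI)
    (hOPN : S_OPN) (hPAR : S_PAR) (hCYC : S_CYC) : S_MD3 := by
  intro p _ S r hr A Hbar H3 H2 _ _ _ _ X a m K t hphi hah hlift hline hvan hC g hg
  obtain ⟨hKfin, hm, hKres, htK, htn⟩ := id hlift
  have haC : a ∈ X.C t := (X.C_mem K t m hlift a).2 hvan
  obtain ⟨e, heC, he⟩ := hCYC A X.h X.fg X.h_prim (X.C t) a haC (X.C_h t) hah hC
  obtain ⟨i₀, j₀, hia⟩ := he a haC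
  have hen : ∀ k : ℤ, e ≠ k • X.h := by
    intro k hk
    apply hah (i₀ * k + j₀)
    rw [hia, hk, add_smul, mul_smul]
  have hfix : ∀ b ∈ X.C t, X.phi b = b := by
    intro b hb
    obtain ⟨n, x, y, hn, hnb⟩ := hC b hb
    have h1 : n • X.phi b = n • b := by
      rw [← map_zsmul, hnb, map_add, map_zsmul, map_zsmul, hphi, X.phi_h]
    have h2 : n • (X.phi b - b) = 0 := by rw [smul_sub, h1, sub_self]
    exact sub_eq_zero.1 (X.tf n _ hn h2)
  have hfixi : ∀ b ∈ X.C t, ∀ i : ℕ, X.phi^[i] b = b := fun b hb i =>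
    Function.iterate_fixed (hfix b hb) i
  obtain ⟨Q⟩ := X.ku K t m hlift hline
  have hact := hTRI p S K A X.h (X.phi^[m]) (X.C t) (X.J t) Q (fun b hb => hfixi b hb m)
  have hgal := hOPN p S K A X.h (X.phi^[m]) (X.C t) (X.J t) Q hact
  set π := QuotientAddGroup.mk' (AddSubgroup.zmultiples X.h) with hπ
  have hcong : ∀ x y, Cong X.h x y ↔ π x = π y := MD3_cong X.h
  have hπh : π X.h = 0 := by
    rw [hπ, QuotientAddGroup.mk'_apply, QuotientAddGroup.eq_zero_iff]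
    exact AddSubgroup.mem_zmultiples X.h
  have hπ0 : ∀ x, π x = 0 → ∃ k : ℤ, x = k • X.h := by
    intro x hx
    rw [hπ, QuotientAddGroup.mk'_apply, QuotientAddGroup.eq_zero_iff,
      AddSubgroup.mem_zmultiples_iff] at hx
    obtain ⟨k, hk⟩ := hx
    exact ⟨k, hk.symm⟩
  have hπe : π e ≠ 0 := by
    intro h0
    obtain ⟨k, hk⟩ := hπ0 e h0
    exact hen k hk
  let cN : Q.N →+ A ⧸ AddSubgroup.zmultiples X.h :=
    AddMonoidHom.mk' (fun x => π (Q.c x)) (by
      intro x y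
      rw [← map_add]
      exact (hcong _ _).1 (Q.c_add x y))
  have hcN : ∀ x, cN x = π (Q.c x) := fun x => rfl
  obtain ⟨u, hu⟩ := Q.c_onto e heC
  have hcu : cN u = π e := ((hcong _ _).1 hu).symm
  obtain ⟨c₀, hc₀⟩ := Q.B_even u
  apply hPAR p c₀ (Q.B u Q.l1) (Q.B u Q.l2) g m
  intro x y hV
  set v : Q.N := u + (x • Q.l1 + y • Q.l2) with hv
  set V : ℤ := c₀ + Q.B u Q.l1 * x + Q.B u Q.l2 * y + x ^ 2 - x * y + y ^ 2 with hVdef
  have hcv : cN v = π e := by
    rw [hv, map_add, hcu]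
    have h1 : Cong X.h (Q.c (x • Q.l1 + y • Q.l2)) 0 := (Q.c_ker _).2 ⟨x, y, rfl⟩
    have h2 : cN (x • Q.l1 + y • Q.l2) = 0 := by
      rw [hcN, (hcong _ _).1 h1, map_zero]
    rw [h2, add_zero]
  have hBv : Q.B v v = 2 * V :=
    MD3_form Q.B Q.B_add Q.B_symm u Q.l1 Q.l2 Q.B11 Q.B22 Q.B12 c₀ hc₀ x y
  have hprim : Primitive v := by
    intro k w hw
    obtain ⟨i, j, hij⟩ := he (Q.c w) (Q.c_mem w)
    have e1 : cN w = i • π e := by
      rw [hcN, hij, map_add, map_zsmul, map_zsmul, hπh, smul_zero, add_zero]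
    have h1 : π e = k • (i • π e) := by
      rw [← e1, ← map_zsmul, ← hw]
      exact hcv.symm
    have h2 : π ((1 - k * i) • e) = 0 := by
      rw [map_zsmul, sub_smul, one_smul, mul_smul, ← h1, sub_self]
    obtain ⟨n, hn⟩ := hπ0 _ h2
    by_cases h3 : 1 - k * i = 0
    · exact Int.eq_one_or_neg_one_of_mul_eq_one (by linarith : k * i = 1)
    · obtain ⟨k', hk'⟩ := X.h_prim _ n e h3 hn
      exact absurd hk' (hen k')
  have hv0 : v ≠ 0 := by
    intro h0
    rw [h0, map_zero] at hcv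
    exact hπe hcv.symm
  obtain ⟨s, hs⟩ := Q.gen v hv0
  obtain ⟨M, hchi, hM⟩ := Q.moduli v s hprim (fun g => hact g v) (by rw [hBv]; linarith) hs
    (fun g => hgal g s)
  have hchi' : S.chi M = V + 2 := by rw [hBv] at hchi; linarith
  have hclaim : ∀ K' : Fld p, IsFin p K' → K ≤ K' → S.pt M K' →
      (r : ℤ) * g ∣ (resDeg p K' : ℤ) := by
    intro K' hK' hKK' hpt
    obtain ⟨d, hd0, hd⟩ := hM K' hK' hKK' hpt
    obtain ⟨hres0, ⟨z, hz0, hzv⟩, -⟩ := hRDG p K' hK'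
    obtain ⟨w, hw⟩ := IsAlgClosed.exists_pow_nat_eq (z : Om p) hd0
    obtain ⟨L, hL, hK'L, -, hdeg, hresL⟩ := hRAM p K' hK' z hz0 hzv d hd0 w hw
    obtain ⟨b, hbJ, hbc⟩ := hd L hL hK'L (dvd_of_eq hdeg.symm)
    have heJ : e ∈ X.J t L := by
      have h1 : Cong X.h e b := by
        rw [hcong, ← hcv, hcN]
        exact (hcong _ _).1 hbc
      obtain ⟨k, hk⟩ := h1
      rw [hk]
      exact add_mem hbJ (zsmul_mem (X.J_h t L) k)
    have hKL : K ≤ L := hKK'.trans hK'L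
    obtain ⟨q, hq⟩ := (hTOW p K L hKfin hL hKL).1
    have hn : resDeg p L = r * (m * q) := by rw [hq, hKres, mul_assoc]
    have hL0 := (hRDG p L hL).1
    have hn0 : 0 < m * q := by
      rcases Nat.eq_zero_or_pos (m * q) with h0 | h0
      · rw [hn, h0] at hL0; simp at hL0
      · exact h0
    have hein : e ∈ X.im (m * q) := X.J_spec K t m hlift L hL hKL (m * q) hn0 hn heJ
    have h2 := X.im_norm (m * q) hn0 e hein
    have h3 : ∑ i ∈ Finset.range (m * q), X.phi^[i] e = ((m * q : ℕ) : ℤ) • e := by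
      rw [Finset.sum_congr rfl (fun i _ => hfixi e heC i), Finset.sum_const, Finset.card_range,
        natCast_zsmul]
    rw [h3] at h2
    have h4 : ((m * q : ℕ) : ℤ) • a ∈ X.im 1 := by
      have h5 : ((m * q : ℕ) : ℤ) • a
          = i₀ • (((m * q : ℕ) : ℤ) • e) + (((m * q : ℕ) : ℤ) * j₀) • X.h := by
        rw [hia, smul_add, smul_smul, smul_smul, smul_smul, mul_comm i₀]
      rw [h5]
      exact add_mem (zsmul_mem h2 i₀) (zsmul_mem X.h_im _)
    have h6 := hg _ h4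
    rw [← hresL, hn]
    push_cast
    push_cast at h6
    exact mul_dvd_mul_left _ h6
  obtain ⟨k, hk⟩ := hWIT p S K hKfin M ((r : ℤ) * g) hclaim
  refine ⟨k, ?_⟩
  rw [hchi', hKres] at hk
  have hr0 : (r : ℤ) ≠ 0 := by exact_mod_cast hr.ne'
  rw [← mul_dvd_mul_iff_left hr0]
  refine hk.trans (dvd_of_eq ?_)
  push_cast
  ring

end Pool.CubicTate
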