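import Pool.Agent.Work.MP_eb5f03_ct.Defs

/-!
# Smooth cubic fourfolds over finite fields of characteristic different from 2

The structure `CubicFour` replaces `CubicFourfold` (`p ≥ 5`) of `MP_eb5f03_ct/Defs.lean`; `p` is any odd
prime.  `A` is the Picard group of the variety of lines `Y` of `X` over the algebraic closure of `F`, `h`
the Plücker class; `Φ : CH²(X̄) → Pic(Ȳ)` is the correspondence given by the lines.  All subgroups of
`A` below are images of Chow groups under `Φ`.
-/

set_option autoImplicit false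

namespace Pool.CubicTate

variable {p : ℕ} [Fact p.Prime]

/-- A smooth cubic fourfold `X` over the field `F` with `p^r` elements, `p` odd.  `A` is the Picard group
of `Ȳ`, `Y` the variety of lines of `X`.  `H3`, `Hbar` are the sums over `l ≠ p` of the groups
`H³_nr(F(X)/F, ℚ_l/ℤ_l(2))` and `H³_nr(F̄(X)/F̄, ℚ_l/ℤ_l(2))`, and `H2` is `H³_nr(F(X)/F, ℤ/2)`. -/
structure CubicFour (S : ProperSchemes p) (r : ℕ) (A Hbar H3 H2 : Type) [AddCommGroup A]
    [AddCommGroup Hbar] [AddCommGroup H3] [AddCommGroup H2] where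
  /-- the Frobenius automorphism of `Ȳ` over `F` -/
  phi : A ≃+ A
  /-- the Plücker class, `h = Φ(h²)`; it is primitive, as `h² · h² = 3` on `X` -/
  h : A
  phi_h : phi h = h
  /-- `Pic(Ȳ)` is finitely generated and torsion free (Altman, Kleiman 1977; `Y` lifts to
  characteristic zero with `H¹(Y, O) = 0`, and is simply connected) -/
  fg : Module.Finite ℤ A
  tf : ∀ (n : ℤ) (a : A), n ≠ 0 → n • a = 0 → a = 0
  h_prim : ∀ (n m : ℤ) (a : A), n ≠ 0 → n • a = m • h → ∃ k : ℤ, a = k • h
  /-- `im m` is the image under `Φ` of `CH²` of the base change of `X` to the extension of degree `m` -/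
  im : ℕ → AddSubgroup A
  h_im : h ∈ im 1
  im_fixed : ∀ m, 0 < m → ∀ a ∈ im m, phi^[m] a = a
  im_norm : ∀ m, 0 < m → ∀ a ∈ im m, ∑ i ∈ Finset.range m, phi^[i] a ∈ im 1
  fin : ∀ a, ∃ m, 0 < m ∧ phi^[m] a = a
  /-- `Φ(CH²(X̄))` -/
  all : AddSubgroup A
  mem_all : ∀ a, a ∈ all ↔ ∃ m, 0 < m ∧ a ∈ im m
  H3_tors : ∀ x : H3, ∃ n : ℕ, ¬ p ∣ n ∧ n • x = 0
  /-- Merkurjev, Suslin 1982 -/
  ms : H2 →+ H3
  ms_inj : Function.Injective ms
  /-- the restriction to `X̄` -/
  nr : H3 →+ Hbar
  /-- Colliot-Thelene, Voisin, Cohomologie non ramifiee et conjecture de Hodge entiere (2012), Kahn,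
  Classes de cycles motiviques etales (2012), Colliot-Thelene, Kahn, Cycles de codimension 2 et H³ non
  ramifie pour les varietes sur les corps finis (2013), Theorem 2.2: `H³_nr(F̄(X)/F̄, ℚ_l/ℤ_l(2))` is the
  torsion of the cokernel of `CH²(X̄) ⊗ ℤ_l → H⁴(X̄, ℤ_l(2))`, `l ≠ p` (`X̄` is unirational), and
  `Pic(Ȳ) ⊗ ℤ_l` is a saturated subgroup of `H²(Ȳ, ℤ_l(1)) = H⁴(X̄, ℤ_l(2))` (Beauville, Donagi 1985) -/
  nrbar : Hbar →+ A ⧸ all
  nrbar_inj : Function.Injective nrbar
  /-- Colliot-Thelene, Kahn 2013, Theorem 6.8: the kernel of the restriction to `X̄` is the prime to `p`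
  part of the cokernel of `CH²(X) → CH²(X̄)^G`, since `H¹(F, H²(X̄, ℚ_l/ℤ_l(2))) = H¹(F, ℚ_l/ℤ_l(1)) = 0`;
  the kernel of `Φ` on `CH²(X̄)` is a `p`-primary torsion group (Bloch, Srinivas 1983; Merkurjev,
  Suslin 1982) -/
  ctk : nr.ker →+ A ⧸ im 1
  ctk_inj : Function.Injective ctk
  ctk_fixed : ∀ x, ∃ a, phi a = a ∧ ctk x = QuotientAddGroup.mk a
  /-- The universal deformation of `X` is the formal spectrum of the ring of power series in twenty
  variables over the Witt vectors of `F`, and over those of the algebraic closure of `F` the closed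
  subscheme where the line bundle `a` on `Ȳ` extends to the variety of lines of the deformation is given
  by one equation `f a`, as `H¹(Y, O) = 0` and `H²(Y, O)` has dimension one (Deligne, Relevement des
  surfaces K3 en caracteristique nulle, 1981; Charles, The Tate conjecture for K3 surfaces over finite
  fields, 2013). -/
  f : A → (Fin 20 → ℕ) → Om p
  f_le : ∀ a α, ‖f a α‖ ≤ 1
  f_zero : ∀ a, ‖f a 0‖ < 1
  /-- the coefficients are in the maximal unramified extension -/
  f_unram : ∀ a α, ‖f a α‖ < 1 → ‖f a α‖ ≤ ‖(p : Om p)‖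
  f_mem : ∀ a m, 0 < m → phi^[m] a = a → ∀ K : Fld p, IsFin p K → resDeg p K = r * m →
    ∀ α, f a α ∈ K
  /-- Let `ω` be a generator of `F³ H⁴_dR(X̄)`, and `b ∈ H⁴_dR(X̄)` the class with `Φ(b) = c₁(a)`.
  The map `ξ ↦ ξ · ω` is an isomorphism of `H¹(X̄, T)` with the orthogonal space of the class of `h²` in
  `H²(X̄, Ω²)` (infinitesimal Torelli theorem, from Bott's theorem; Hodge numbers: Deligne, SGA 7 XI).
  First case: the class of `b` in `H²(X̄, Ω²)` is not a multiple of the class of `h²`, and `f a` has a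
  linear coefficient which is a unit.  Second case: `b = c h² + e ω`, `e ≠ 0`; then modulo `p` and cubes
  `f a` is `-e/2` times the quadratic form `⟨∇_i ω, ∇_j ω⟩` (Griffiths transversality and the crystalline
  criterion of Berthelot, Ogus for the nilpotent divided powers of the maximal ideal of
  `k[t]/(t)^3`, `p` odd), of rank at least `19` (its radical is `0`, or generated by `h²` if `p = 3`): a
  minor of order `19` is a unit.  Third case: `b` is a multiple of the class of `h²`; then `c₁(a) = c h` in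
  `H²_dR(Ȳ)`, `c ∈ F_p` (Cartier operator), and `a ∈ p A + ℤ h` since `Pic(Ȳ)/p` embeds into
  `H²_dR(Ȳ)` (Ogus 1979, Illusie 1979, `H⁰(Y, Ω¹) = H¹(Y, O) = 0`).  -/
  cases : ∀ a, (∃ i, ‖f a (Pi.single i 1)‖ = 1) ∨
    ((∀ i, ‖f a (Pi.single i 1)‖ < 1) ∧ ∃ i j, ‖minor p (f a) i j‖ = 1) ∨
    ∃ (b : A) (m : ℤ), a = (p : ℤ) • b + m • h
  /-- the image under `Φ` of `CH²` of the geometric generic fibre of the deformation `t`, after
  specialisation -/
  C : (Fin 20 → Om p) → AddSubgroup A
  /-- Fulton, Intersection theory, 20.3 (specialisation) -/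
  C_all : ∀ (K : Fld p) (t : Fin 20 → Om p) (m : ℕ), IsLift r K t m → C t ≤ all
  /-- Voisin, Some aspects of the Hodge conjecture, 2007, Theorem 18 (integral Hodge conjecture for
  cubic fourfolds), and the isomorphism of Beauville and Donagi 1985 between `H⁴` of the cubic fourfold
  and `H²` of its variety of lines: `a` is in the image of the Chow group of the deformation if and only
  if the line bundle extends -/
  C_mem : ∀ (K : Fld p) (t : Fin 20 → Om p) (m : ℕ), IsLift r K t m →
    ∀ a, a ∈ C t ↔ Vanishes p (f a) t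
  C_h : ∀ t, h ∈ C t
  /-- the local Torelli theorem (Voisin 1986; Beauville, Donagi 1985), the implicit function theorem
  over `K` and the injectivity of `NS ⊗ K → H^{1,1}`: if the line bundle `b` extends to all
  deformations over `K`, near `u`, to which the line bundle `a` extends, then `b` is a rational
  combination of `a` and `h` -/
  torelli : ∀ (a b : A) (K : Fld p) (u : Fin 20 → Om p) (m : ℕ) (ρ : ℝ), IsLift r K u m →
    phi^[m] a = a → Vanishes p (f a) u → 0 < ρ →
    (∀ t : Fin 20 → Om p, IsLift r K t m → (∀ i, ‖t i - u i‖ < ρ) → Vanishes p (f a) t →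
      Vanishes p (f b) t) →
    ∃ n x y : ℤ, n ≠ 0 ∧ n • b = x • a + y • h
  /-- `J t L` is the image of `CH²(X_L)`, `X` the deformation `t`, under specialisation and `Φ` -/
  J : (Fin 20 → Om p) → Fld p → AddSubgroup A
  J_h : ∀ t L, h ∈ J t L
  J_spec : ∀ (K : Fld p) (t : Fin 20 → Om p) (m : ℕ), IsLift r K t m → ∀ (L : Fld p),
    IsFin p L → K ≤ L → ∀ n, 0 < n → resDeg p L = r * n → J t L ≤ im n
  /-- `X` contains a line over the extension of degree `m` which is in no plane of `X̄` -/
  Line : ℕ → Prop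
  /-- Lang, Weil 1954, and Altman, Kleiman 1977 (the variety of lines is geometrically irreducible) -/
  lang_weil : ∃ m₀, ∀ m, m₀ ≤ m → Line m
  ku : ∀ (K : Fld p) (t : Fin 20 → Om p) (m : ℕ), IsLift r K t m → Line m →
    Nonempty (Kuznetsov S K h (phi^[m]) (C t) (J t))

end Pool.CubicTate
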