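import Pool.Agent.Work.MP_eb5f03_ct.Interface
import Pool.Agent.Work.MP_eb5f03_all.Defs3

/-!
# Blocks for all odd `p`

The blocks `RDG TOW RAM UNR WIT TRI OPN PAR CYC DIV RES NEW LIN QUA EST CLO LIM BAI` of `MP_eb5f03_ct` are used as
they are.  File `Pool/Agent/Work/MP_eb5f03_all/B_X.lean`, namespace `Pool.CubicTate`.
-/

set_option autoImplicit false

namespace Pool.CubicTate

/-- LF3 (uses RDG, RAM, UNR, LIN, QUA, LIM, BAI).  As LFT, for a class fixed by `phi^[m]`. -/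
def S_LF3 : Prop := ∀ (p : ℕ) [Fact p.Prime], p ≠ 2 → ∀ (S : ProperSchemes p) (r : ℕ), 0 < r →
  ∀ (A Hbar H3 H2 : Type) [AddCommGroup A] [AddCommGroup Hbar] [AddCommGroup H3] [AddCommGroup H2]
  (X : CubicFour S r A Hbar H3 H2) (a : A) (m : ℕ), 0 < m → X.phi^[m] a = a →
  (∀ (b : A) (n : ℤ), a ≠ (p : ℤ) • b + n • X.h) →
  ∃ (K : Fld p) (t : Fin 20 → Om p), IsLift r K t m ∧ Vanishes p (X.f a) t ∧
    ∀ b ∈ X.C t, ∃ n x y : ℤ, n ≠ 0 ∧ n • b = x • a + y • X.h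

/-- MD3 (uses RDG, TOW, RAM, WIT, TRI, OPN, PAR, CYC).  As MOD. -/
def S_MD3 : Prop := ∀ (p : ℕ) [Fact p.Prime] (S : ProperSchemes p) (r : ℕ), 0 < r →
  ∀ (A Hbar H3 H2 : Type) [AddCommGroup A] [AddCommGroup Hbar] [AddCommGroup H3] [AddCommGroup H2]
  (X : CubicFour S r A Hbar H3 H2) (a : A) (m : ℕ) (K : Fld p) (t : Fin 20 → Om p),
  X.phi a = a → (∀ k : ℤ, a ≠ k • X.h) → IsLift r K t m → X.Line m → Vanishes p (X.f a) t →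
  (∀ b ∈ X.C t, ∃ n x y : ℤ, n ≠ 0 ∧ n • b = x • a + y • X.h) →
  ∀ g : ℤ, (∀ n : ℤ, n • a ∈ X.im 1 → g ∣ n) → ∃ k : ℕ, g ∣ (p : ℤ) ^ k * (m : ℤ)

/-- ALL (uses LF3, DIV).  Every line bundle on `Ȳ` comes from a cycle on `X̄`.
PROOF.  `a ∈ ℤh`: `h ∈ im 1`.  Otherwise DIV: `a = p^k b + j h`; `phi^[m] b = b` for some `m > 0` (`fin`);
LF3: `K`, `t` with `Vanishes (f b) t`, so `b ∈ C t ≤ all` (`C_mem`, `C_all`), so `a ∈ all`. -/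
def S_ALL : Prop := ∀ (p : ℕ) [Fact p.Prime], p ≠ 2 → ∀ (S : ProperSchemes p) (r : ℕ), 0 < r →
  ∀ (A Hbar H3 H2 : Type) [AddCommGroup A] [AddCommGroup Hbar] [AddCommGroup H3] [AddCommGroup H2]
  (X : CubicFour S r A Hbar H3 H2) (a : A), a ∈ X.all

/-- FN3 (uses LF3, MD3, DIV, ALL).  The theorem.
PROOF.  First part as in FIN.  `x ∈ H3`: `nrbar (nr x) = 0` (ALL), so `nr x = 0`; `ctk ⟨x, _⟩ = mk a` with
`phi a = a`, `p^k a ∈ im 1`, so `p^k x = 0`; `n x = 0` with `n` prime to `p`; so `x = 0`. -/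
def S_FN3 : Prop := ∀ (p : ℕ) [Fact p.Prime], p ≠ 2 → ∀ (S : ProperSchemes p) (r : ℕ), 0 < r →
  ∀ (A Hbar H3 H2 : Type) [AddCommGroup A] [AddCommGroup Hbar] [AddCommGroup H3] [AddCommGroup H2]
  (X : CubicFour S r A Hbar H3 H2),
  (∀ a, X.phi a = a → ∃ k : ℕ, (p ^ k) • a ∈ X.im 1) ∧ (∀ x : H3, x = 0) ∧ ∀ x : H2, x = 0

end Pool.CubicTate
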